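import Mathlib
import Pool.Agent.Y740.RL.Ell

/-!
# The Lehmer problem for elliptic curves with a place of potentially supersingular reduction

Let `W` be an elliptic curve over a number field `K`, which has potentially good, supersingular
reduction at a prime `𝔭` of `K` above the prime number `p`. Then there is a constant `C` such that
the Néron-Tate height of every point `P` of infinite order of `W`, defined over an extension of
degree `D` of `K`, is at least `exp (- C * sqrt (1 + log D)) / (C * D)`.

More precisely let `N` be an abelian extension of `K` and `L` a finite extension of `N`. For all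
points `P` of infinite order of `W(L)`
* `ĥ(P) ≥ exp (- C * sqrt (1 + log [L : N])) / (C * [L : K])`;
* `ĥ(P) ≥ exp (- C * sqrt (1 + log [L : N])) / (C * e * [L : N])`, if the ramification indices of
  `N` over `K` at the primes above `𝔭` are at most `e`.
Here `C` depends on `W` and `𝔭` only. More generally `N` may be any Galois extension of `K` such
that, for a fixed `n`, the `n`-th powers of the elements of the decomposition groups above `𝔭` have
a bounded number of conjugates in the Galois group.
-/

set_option autoImplicit false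

namespace Pool.Agent.Results.MP_022f22_nt.SupersingularEllipticCurves

open MvPolynomial NumberField Module Filter Topology
open scoped Pointwise

/-- A pair `G` of binary forms of degree `q` over the number field `k` has *good, purely
inseparable reduction* at the finite place `v`: all coefficients are `v`-integral, those of the
monomials other than `X ^ q` and `Y ^ q` are in the maximal ideal, and the determinant of the
coefficients of `X ^ q` and `Y ^ q` is a unit at `v`. -/
def GoodInseparable {k : Type} [Field k] [NumberField k] (v : FinitePlace k) (q : ℕ)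
    (G : Fin 2 → MvPolynomial (Fin 2) k) : Prop :=
  (∀ i m, v ((G i).coeff m) ≤ 1) ∧
  (∀ i m, m ≠ Finsupp.single 0 q → m ≠ Finsupp.single 1 q → v ((G i).coeff m) < 1) ∧
  v ((G 0).coeff (Finsupp.single 0 q) * (G 1).coeff (Finsupp.single 1 q) -
    (G 0).coeff (Finsupp.single 1 q) * (G 1).coeff (Finsupp.single 0 q)) = 1

/-- The pair `F` of binary forms over `K` has *potentially good, purely inseparable reduction*
above the prime ideal `𝔭` of `K`, which contains `p`: there are a number field `K'` containing `K`,
an invertible matrix `A` over `K'` and a pair `G` of binary forms of degree `q` over `K'` with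
`A ∘ F = G ∘ A`, which has good, purely inseparable reduction at a finite place `v` of `K'` above
`𝔭`. -/
def PotentiallyInseparable {K : Type} [Field K] [NumberField K] (𝔭 : Ideal (𝓞 K)) (p q : ℕ)
    (F : Fin 2 → MvPolynomial (Fin 2) K) : Prop :=
  ∃ (K' : Type) (_ : Field K') (_ : NumberField K') (_ : Algebra K K')
    (A : Matrix (Fin 2) (Fin 2) K') (G : Fin 2 → MvPolynomial (Fin 2) K') (v : FinitePlace K'),
    A.det ≠ 0 ∧ (∀ i, (G i).IsHomogeneous q) ∧
    (∀ i, ∑ j, C (A i j) * map (algebraMap K K') (F j) =
      bind₁ (fun k => ∑ l, C (A k l) * X l) (G i)) ∧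
    v.maximalIdeal.asIdeal.under (𝓞 K) = 𝔭 ∧ v (p : K') < 1 ∧ GoodInseparable v q G

/-- the map defined by a pair of forms, on coordinate vectors over an extension -/
noncomputable def evalMap {K L : Type} [Field K] [Field L] [Algebra K L]
    (F : Fin 2 → MvPolynomial (Fin 2) K) (y : Fin 2 → L) : Fin 2 → L := fun i => aeval y (F i)

/-- the coordinate vector `(x : 1)` of the first coordinate of a point of the curve `W` over `L`,
and `(1 : 0)` for the point at infinity -/
noncomputable def xCoord {L : Type} [Field L] {W : WeierstrassCurve.Affine L} :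
    W.Point → Fin 2 → L
  | .zero => ![1, 0]
  | .some x _ _ => ![x, 1]

open Classical in
/-- the pair `F` of forms of degree `p ^ 2` gives the multiplication by `p` of the curve `W` on
first coordinates, `x(p P) = F(x(P))`, for the points over all number fields containing `K` -/
def IsMultiplication {K : Type} [Field K] [NumberField K] (W : WeierstrassCurve.Affine K) (p : ℕ)
    (F : Fin 2 → MvPolynomial (Fin 2) K) : Prop :=
  (∀ i, (F i).IsHomogeneous (p ^ 2)) ∧
  ∀ (L : Type) [Field L] [NumberField L] [Algebra K L] (P : (W.baseChange L).Point),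
    ∃ c : L, c ≠ 0 ∧ evalMap F (xCoord P) = c • xCoord (p • P)

/-- The elliptic curve `W` is *potentially supersingular* at the prime ideal `𝔭` of `K`, which
contains `p`: the pair of forms which gives the multiplication by `p` on first coordinates has
potentially good, purely inseparable reduction above `𝔭`. -/
def PotentiallySupersingular {K : Type} [Field K] [NumberField K] (W : WeierstrassCurve.Affine K)
    (𝔭 : Ideal (𝓞 K)) (p : ℕ) : Prop :=
  ∃ F : Fin 2 → MvPolynomial (Fin 2) K,
    IsMultiplication W p F ∧ PotentiallyInseparable 𝔭 p (p ^ 2) F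

open Classical in
/-- `h` is the Néron-Tate height (relative to the origin) of the point `P` over the number field
`L`, computed with the multiplication by `m`: half the limit of `h(x(m ^ k P)) / m ^ (2 k)`, where
`h` is the absolute logarithmic Weil height, that is Mathlib's (relative) `Height.logHeight`
divided by `[L : ℚ]` -/
def IsNeronTateHeight {L : Type} [Field L] [NumberField L] {W : WeierstrassCurve.Affine L}
    (m : ℕ) (P : W.Point) (h : ℝ) : Prop :=
  Tendsto (fun k : ℕ => Height.logHeight (xCoord (m ^ k • P)) /
    (2 * (finrank ℚ L : ℝ) * (m : ℝ) ^ (2 * k))) atTop (𝓝 h)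

/-- the `n`-th powers of the elements of the decomposition groups of the primes of `N` above `𝔭`
have at most `B` conjugates in the Galois group of `N` over `K` -/
def FewConjugates {K : Type} [Field K] [NumberField K] (𝔭 : Ideal (𝓞 K)) (N : Type) [Field N]
    [NumberField N] [Algebra K N] (n B : ℕ) : Prop :=
  ∀ 𝔓 : Ideal (𝓞 N), 𝔓.IsMaximal → 𝔓.LiesOver 𝔭 → ∀ σ : Gal(N/K), σ • 𝔓 = 𝔓 →
    (Set.range fun g : Gal(N/K) => g * σ ^ n * g⁻¹).ncard ≤ B

open Classical in
/-- **Main result.** -/
theorem result (K : Type) [Field K] [NumberField K] (W : WeierstrassCurve.Affine K)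
    [W.IsElliptic] (p : ℕ) (hp : p.Prime) (𝔭 : Ideal (𝓞 K))
    (hss : PotentiallySupersingular W 𝔭 p)
    -- `n = B = 1` allows all abelian extensions `N` of `K`
    (n B : ℕ) (hn : 1 ≤ n) :
    ∃ C : ℝ, 0 < C ∧ ∀ (N L : Type) [Field N] [NumberField N] [Field L] [NumberField L]
      [Algebra K N] [Algebra N L] [Algebra K L] [IsScalarTower K N L] [IsGalois K N],
      FewConjugates 𝔭 N n B → ∀ P : (W.baseChange L).Point, ¬ IsOfFinAddOrder P →
      ∃ h : ℝ, IsNeronTateHeight p P h ∧
        Real.exp (-(C * Real.sqrt (1 + Real.log (finrank N L)))) / (C * finrank K L) ≤ h ∧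
        ∀ e : ℕ, (∀ 𝔓 : Ideal (𝓞 N), 𝔓.IsMaximal → 𝔓.LiesOver 𝔭 →
          𝔓.ramificationIdx (𝓞 K) ≤ e) →
          Real.exp (-(C * Real.sqrt (1 + Real.log (finrank N L)))) / (C * e * finrank N L) ≤
            h := by
  obtain ⟨F, ⟨hF, hmul⟩, K', i1, i2, i3, A, G, v, hA, hG, hconj, hv𝔭, hv, h1, h2, h3⟩ := hss
  subst hv𝔭
  obtain ⟨C, hC, hmain⟩ := Pool.Agent.Y740.RL.topE hp (by norm_num : 1 ≤ 2) F K' A hA G hG hconj
    v hv ⟨h1, h2, h3⟩ B n hn
  refine ⟨2 * C, by positivity, ?_⟩
  intro N L _ _ _ _ _ _ _ _ _ hN P hP
  have hxc : ∀ Q : (W.baseChange L).Point, xCoord Q = Pool.Agent.Y740.RL.xc Q := by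
    intro Q
    cases Q <;> rfl
  have hmul' : ∀ Q : (W.baseChange L).Point, ∃ c : L, c ≠ 0 ∧
      Pool.Agent.H420R3.act F (Pool.Agent.Y740.RL.xc Q) =
        c • Pool.Agent.Y740.RL.xc (p • Q) := by
    intro Q
    obtain ⟨c, hc, hc'⟩ := hmul L Q
    rw [hxc, hxc] at hc'
    exact ⟨c, hc, hc'⟩
  obtain ⟨h, hlim, hb, he⟩ := hmain N L hN (Pool.Agent.Y740.RL.xc P)
    (Pool.Agent.Y740.RL.xc_ne_zero P)
    (Pool.Agent.Y740.RL.wandering_xc hp.two_le hF hmul' hP)
  have hexp : Real.exp (-(2 * C * Real.sqrt (1 + Real.log (finrank N L)))) ≤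
      Real.exp (-(C * Real.sqrt (1 + Real.log (finrank N L)))) := by
    apply Real.exp_le_exp.mpr
    have : 0 ≤ C * Real.sqrt (1 + Real.log (finrank N L : ℝ)) := by positivity
    linarith
  have key : ∀ t : ℝ, 0 ≤ t →
      Real.exp (-(C * Real.sqrt (1 + Real.log (finrank N L)))) / (C * t) ≤ h →
      Real.exp (-(2 * C * Real.sqrt (1 + Real.log (finrank N L)))) / (2 * C * t) ≤ h / 2 := by
    intro t ht hle
    calc Real.exp (-(2 * C * Real.sqrt (1 + Real.log (finrank N L)))) / (2 * C * t) ≤
        Real.exp (-(C * Real.sqrt (1 + Real.log (finrank N L)))) / (2 * C * t) := by gcongr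
      _ = (Real.exp (-(C * Real.sqrt (1 + Real.log (finrank N L)))) / (C * t)) / 2 := by
          rw [div_div]
          congr 1
          ring
      _ ≤ h / 2 := by gcongr
  refine ⟨h / 2, ?_, key _ (by positivity) hb, fun e hee => ?_⟩
  · unfold IsNeronTateHeight
    refine (hlim.div_const 2).congr fun k => ?_
    obtain ⟨c, hc, hc'⟩ := Pool.Agent.Y740.RL.iter_xc hF hmul' P k
    rw [hc', Height.logHeight_smul_eq_logHeight _ hc, hxc, div_div]
    congr 1
    push_cast
    rw [← pow_mul]
    ring
  · have h5 := he e hee
    rw [mul_assoc C] at h5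
    have h6 := key _ (by positivity) h5
    rw [← mul_assoc] at h6
    exact h6

end Pool.Agent.Results.MP_022f22_nt.SupersingularEllipticCurves
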